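import Mathlib

set_option autoImplicit false

namespace Pool.Agent.H.MP_8a688e_nt

open Finset Filter Topology

noncomputable def sig (c : ℂ) (n : ℕ) : ℂ := ∑ d ∈ n.divisors, (d : ℂ) ^ c

theorem sig_mul (c : ℂ) {m n : ℕ} (h : m.Coprime n) : sig c (m * n) = sig c m * sig c n := by
  unfold sig
  rw [Nat.divisors_mul, Finset.mul_def, Finset.sum_image h.mul_injOn_divisors, Finset.sum_product,
    Finset.sum_mul_sum]
  refine Finset.sum_congr rfl fun a _ => Finset.sum_congr rfl fun b _ => ?_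
  push_cast
  exact Complex.natCast_mul_natCast_cpow a b c

theorem sig_one (c : ℂ) : sig c 1 = 1 := by simp [sig]

theorem sig_pp (c : ℂ) {p : ℕ} (hp : p.Prime) (a : ℕ) :
    sig c (p ^ a) = ∑ i ∈ range (a + 1), ((p : ℂ) ^ c) ^ i := by
  unfold sig
  rw [Nat.divisors_prime_pow hp, Finset.sum_map]
  refine Finset.sum_congr rfl fun i _ => ?_
  simp only [Function.Embedding.coeFn_mk]
  clear * -
  induction i with
  | zero => simp
  | succ j ih => rw [pow_succ, Nat.cast_mul, Complex.natCast_mul_natCast_cpow, ih, pow_succ]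

theorem sig_prod (c : ℂ) (A : Finset ℕ) (hA : ∀ q ∈ A, q.Prime) :
    sig c (∏ q ∈ A, q) = ∏ q ∈ A, (1 + (q : ℂ) ^ c) := by
  induction A using Finset.induction_on with
  | empty => simp [sig_one]
  | insert a A ha ih =>
    have hp := hA a (by simp)
    have hA' : ∀ q ∈ A, q.Prime := fun q hq => hA q (by simp [hq])
    rw [Finset.prod_insert ha, Finset.prod_insert ha, sig_mul, ih hA']
    · congr 1
      have := sig_pp c hp 1
      simpa [Finset.sum_range_succ] using this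
    · exact Nat.Coprime.prod_right fun q hq =>
        (Nat.coprime_primes hp (hA' q hq)).2 fun h => ha (h ▸ hq)

theorem sum_le_tail {c : ℂ} (hc : c.re < -1) (P : ℕ) (S : Finset ℕ) (hS : ∀ d ∈ S, P + 1 ≤ d) :
    ‖∑ d ∈ S, (d : ℂ) ^ c‖ ≤ ∑' k : ℕ, ((k + (P + 1) : ℕ) : ℝ) ^ c.re := by
  have hs : Summable fun k : ℕ => ((k + (P + 1) : ℕ) : ℝ) ^ c.re :=
    (summable_nat_add_iff (f := fun n : ℕ => (n : ℝ) ^ c.re) (P + 1)).2
      (Real.summable_nat_rpow.2 hc)
  refine (norm_sum_le _ _).trans ?_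
  have : ∑ d ∈ S, ‖(d : ℂ) ^ c‖ =
      ∑ k ∈ S.image (· - (P + 1)), ((k + (P + 1) : ℕ) : ℝ) ^ c.re := by
    rw [Finset.sum_image fun a ha b hb h => by
      have := hS a ha; have := hS b hb; omega]
    refine Finset.sum_congr rfl fun d hd => ?_
    have := hS d hd
    rw [Complex.norm_natCast_cpow_of_pos (by omega), Nat.sub_add_cancel this]
  rw [this]
  exact hs.sum_le_tsum _ fun _ _ => by positivity

theorem sig_bdd {c : ℂ} (hc : c.re < -1) : ∃ B : ℝ, 0 < B ∧ ∀ n, ‖sig c n‖ ≤ B := by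
  refine ⟨1 + ∑' k : ℕ, ((k + (0 + 1) : ℕ) : ℝ) ^ c.re, ?_, fun n => ?_⟩
  · have : 0 ≤ ∑' k : ℕ, ((k + (0 + 1) : ℕ) : ℝ) ^ c.re := tsum_nonneg fun _ => by positivity
    linarith
  · have := sum_le_tail hc 0 n.divisors fun d hd => Nat.pos_of_mem_divisors hd
    unfold sig
    linarith

theorem sig_rough {c : ℂ} (hc : c.re < -1) {e : ℝ} (he : 0 < e) :
    ∃ P : ℕ, ∀ n, n ≠ 0 → (∀ q, q.Prime → q ∣ n → P ≤ q) → ‖sig c n - 1‖ < e := by
  have h := (tendsto_sum_nat_add fun n : ℕ => (n : ℝ) ^ c.re).eventually (gt_mem_nhds he)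
  obtain ⟨P, hP⟩ := eventually_atTop.1 h
  refine ⟨P + 1, fun n hn h => ?_⟩
  have h1 : sig c n - 1 = ∑ d ∈ n.divisors.erase 1, (d : ℂ) ^ c := by
    unfold sig
    rw [← Finset.add_sum_erase _ _ (Nat.one_mem_divisors.2 hn)]; simp
  rw [h1]
  refine (sum_le_tail hc P _ fun d hd => ?_).trans_lt (hP (P + 1) (by omega))
  obtain ⟨a, b⟩ := Finset.mem_erase.1 hd
  exact (h _ (Nat.minFac_prime a) ((Nat.minFac_dvd d).trans (Nat.dvd_of_mem_divisors b))).trans
    (Nat.minFac_le (Nat.pos_of_mem_divisors b))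

theorem const_of {c : ℂ} (hc : c.re < -1)
    (H : ∀ p a : ℕ, p.Prime → ∀ e : ℝ, 0 < e → ∃ u v : ℕ, u ≠ 0 ∧ v ≠ 0 ∧
      (∀ q, q.Prime → q ∣ u → p < q) ∧ (∀ q, q.Prime → q ∣ v → p < q) ∧
      ‖sig c (p ^ (a + 1)) * sig c u - sig c (p ^ a) * sig c v‖ < e)
    (f : ℕ → Prop) {d : ℝ} (hd : 0 < d)
    (hf : ∀ m n, m ≠ 0 → n ≠ 0 → ‖sig c m - sig c n‖ < d → (f m ↔ f n)) :
    ∀ n, n ≠ 0 → (f n ↔ f 1) := by
  obtain ⟨B, hB, hB'⟩ := sig_bdd hc
  have cop : ∀ k m n : ℕ, (∀ q, q.Prime → q ∣ m → q < k) → (∀ q, q.Prime → q ∣ n → k ≤ q) →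
      m.Coprime n := fun k m n h1 h2 =>
    Nat.coprime_of_dvd fun q hq a b => absurd (h1 q hq a) (not_lt.2 (h2 q hq b))
  have small : ∀ (m : ℕ) (z : ℂ), ‖z‖ < d / B → ‖sig c m * z‖ < d := fun m z hz => by
    rw [norm_mul]
    calc _ ≤ B * ‖z‖ := mul_le_mul_of_nonneg_right (hB' m) (norm_nonneg _)
      _ < B * (d / B) := mul_lt_mul_of_pos_left hz hB
      _ = d := by field_simp
  obtain ⟨P, hP⟩ := sig_rough hc (div_pos hd hB)
  have key : ∀ j k : ℕ, P ≤ k + j → ∀ m n, m ≠ 0 → n ≠ 0 → (∀ q, q.Prime → q ∣ m → q < k) →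
      (∀ q, q.Prime → q ∣ n → k ≤ q) → (f (m * n) ↔ f m) := by
    intro j
    induction j with
    | zero =>
      intro k hk m n hm hn h1 h2
      refine hf _ _ (mul_ne_zero hm hn) hm ?_
      rw [sig_mul c (cop k m n h1 h2), ← mul_sub_one]
      exact small _ _ (hP n hn fun q hq hqn => hk.trans (h2 q hq hqn))
    | succ j ih =>
      intro k hk m n hm hn h1 h2
      have ih' := ih (k + 1) (by omega)
      by_cases hp : k.Prime
      · have hpa : ∀ a, ∀ q, q.Prime → q ∣ m * k ^ a → q < k + 1 := fun a q hq h => by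
          rcases (Nat.Prime.dvd_mul hq).1 h with h | h
          · exact (h1 q hq h).trans (by omega)
          · rw [(Nat.prime_dvd_prime_iff_eq hq hp).1 (hq.dvd_of_dvd_pow h)]; omega
        have hne : ∀ a, m * k ^ a ≠ 0 := fun a => mul_ne_zero hm (pow_ne_zero _ hp.ne_zero)
        have hmk : ∀ a, m.Coprime (k ^ a) := fun a => cop k _ _ h1 fun q hq h => by
          rw [(Nat.prime_dvd_prime_iff_eq hq hp).1 (hq.dvd_of_dvd_pow h)]
        have step : ∀ a, f (m * k ^ a) ↔ f m := by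
          intro a
          induction a with
          | zero => simp
          | succ a iha =>
            obtain ⟨u, v, hu, hv, u1, v1, huv⟩ := H k a hp _ (div_pos hd hB)
            rw [← ih' _ u (hne _) hu (hpa _) u1, ← iha, ← ih' _ v (hne _) hv (hpa _) v1]
            refine hf _ _ (mul_ne_zero (hne _) hu) (mul_ne_zero (hne _) hv) ?_
            rw [sig_mul c (cop (k + 1) _ _ (hpa _) u1), sig_mul c (cop (k + 1) _ _ (hpa _) v1),
              sig_mul c (hmk _), sig_mul c (hmk _), mul_assoc, mul_assoc, ← mul_sub]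
            exact small _ _ huv
        obtain ⟨a, n', hn', rfl⟩ := Nat.exists_eq_pow_mul_and_not_dvd hn k hp.ne_one
        rw [← mul_assoc, ih' _ n' (hne a) (right_ne_zero_of_mul hn) (hpa a) fun q hq h => ?_, step]
        have := h2 q hq (h.mul_left _)
        rcases this.eq_or_lt with rfl | h'
        · exact absurd h hn'
        · exact h'
      · refine ih' m n hm hn (fun q hq h => (h1 q hq h).trans (by omega)) fun q hq h => ?_
        rcases (h2 q hq h).eq_or_lt with rfl | h'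
        · exact absurd hq hp
        · exact h'
  intro n hn
  have := key P 0 (by omega) 1 n one_ne_zero hn
    (fun q hq h => absurd (Nat.dvd_one.1 h) hq.ne_one) (fun q _ _ => Nat.zero_le q)
  rwa [one_mul] at this

theorem conn_of {c : ℂ} (hc : c.re < -1)
    (H : ∀ p a : ℕ, p.Prime → ∀ e : ℝ, 0 < e → ∃ u v : ℕ, u ≠ 0 ∧ v ≠ 0 ∧
      (∀ q, q.Prime → q ∣ u → p < q) ∧ (∀ q, q.Prime → q ∣ v → p < q) ∧
      ‖sig c (p ^ (a + 1)) * sig c u - sig c (p ^ a) * sig c v‖ < e) :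
    IsConnected (closure {z | ∃ n : ℕ, 1 ≤ n ∧ z = sig c n}) := by
  set S := {z | ∃ n : ℕ, 1 ≤ n ∧ z = sig c n} with hS
  refine ⟨⟨sig c 1, subset_closure ⟨1, le_rfl, rfl⟩⟩, ?_⟩
  obtain ⟨B, -, hB⟩ := sig_bdd hc
  have hK : IsCompact (closure S) := by
    refine Bornology.IsBounded.isCompact_closure (isBounded_iff_forall_norm_le.2 ⟨B, ?_⟩)
    rintro z ⟨n, -, rfl⟩
    exact hB n
  rw [isPreconnected_iff_subset_of_fully_disjoint_closed isClosed_closure]
  intro u v hu hv huv hd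
  obtain ⟨r, hr, h⟩ := Metric.exists_pos_forall_lt_edist (hK.inter_right hu) hv
    (hd.mono_left Set.inter_subset_right)
  have mem : ∀ n, n ≠ 0 → sig c n ∈ closure S := fun n hn =>
    subset_closure ⟨n, Nat.pos_of_ne_zero hn, rfl⟩
  have one : ∀ m n, m ≠ 0 → n ≠ 0 → ‖sig c m - sig c n‖ < r → sig c m ∈ u → sig c n ∈ u := by
    intro m n hm hn hmn hmu
    refine (huv (mem n hn)).resolve_right fun hnv => ?_
    have := h _ ⟨mem m hm, hmu⟩ _ hnv
    rw [edist_dist, dist_eq_norm, ← ENNReal.ofReal_coe_nnreal] at this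
    exact this.not_ge (ENNReal.ofReal_le_ofReal hmn.le)
  have key := const_of hc H (fun n => sig c n ∈ u) (d := r) hr fun m n hm hn hmn =>
    ⟨one m n hm hn hmn, one n m hn hm (by rwa [norm_sub_rev])⟩
  by_cases h1 : sig c 1 ∈ u
  · left
    refine closure_minimal ?_ hu
    rintro z ⟨n, hn, rfl⟩
    exact (key n (by omega)).2 h1
  · right
    refine closure_minimal ?_ hv
    rintro z ⟨n, hn, rfl⟩
    exact (huv (mem n (by omega))).resolve_left fun h => h1 ((key n (by omega)).1 h)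

end Pool.Agent.H.MP_8a688e_nt
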