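import Pool.Agent.H.MP_8a688e_nt.A

set_option autoImplicit false

namespace Pool.Agent.H.MP_8a688e_nt

open Finset Filter Topology Complex

theorem axis (w : ℕ → ℂ) (m : ℝ) (z : ℂ) (W : Finset ℕ)
    (h1 : ∀ q ∈ W, |(w q).im| ≤ |(w q).re| / 4) (h2 : ∀ q ∈ W, |(w q).re| ≤ m) :
    ∃ A ⊆ W, ∃ B ⊆ W, ∃ t : ℝ, 0 ≤ t ∧
      |(z - (∑ q ∈ A, w q - ∑ q ∈ B, w q)).re| = |z.re| - t ∧
      |(z - (∑ q ∈ A, w q - ∑ q ∈ B, w q)).im - z.im| ≤ t / 4 ∧
      (t = ∑ q ∈ W, |(w q).re| ∨ |(z - (∑ q ∈ A, w q - ∑ q ∈ B, w q)).re| ≤ m) := by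
  induction W using Finset.induction_on with
  | empty => exact ⟨∅, by simp, ∅, by simp, 0, by simp⟩
  | insert a W ha ih =>
    obtain ⟨A, hA, B, hB, t, t0, e1, e2, e3⟩ :=
      ih (fun q hq => h1 q (by simp [hq])) (fun q hq => h2 q (by simp [hq]))
    have g1 := h1 a (by simp)
    have g2 := h2 a (by simp)
    set y := z - (∑ q ∈ A, w q - ∑ q ∈ B, w q) with hy
    have hA' := hA.trans (Finset.subset_insert a W)
    have hB' := hB.trans (Finset.subset_insert a W)
    have hw := abs_nonneg (w a).re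
    by_cases hc : |(w a).re| ≤ |y.re|
    · by_cases hs : 0 ≤ y.re * (w a).re
      · have e : z - (∑ q ∈ insert a A, w q - ∑ q ∈ B, w q) = y - w a := by
          rw [Finset.sum_insert fun h => ha (hA h), hy]; ring
        have r : |(y - w a).re| = |y.re| - |(w a).re| := by
          rw [sub_re]
          cases abs_cases y.re <;> cases abs_cases (w a).re <;>
            cases abs_cases (y.re - (w a).re) <;> nlinarith
        refine ⟨insert a A, Finset.insert_subset_insert _ hA, B, hB', t + |(w a).re|, by linarith,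
          by rw [e, r, e1]; ring, ?_, ?_⟩
        · rw [e, sub_im]
          have := abs_sub (y.im - z.im) (w a).im
          rw [show y.im - (w a).im - z.im = y.im - z.im - (w a).im by ring]
          linarith
        · rw [e, r, Finset.sum_insert ha]
          exact e3.imp (fun h => by linarith) fun h => by linarith
      · have e : z - (∑ q ∈ A, w q - ∑ q ∈ insert a B, w q) = y + w a := by
          rw [Finset.sum_insert fun h => ha (hB h), hy]; ring
        have r : |(y + w a).re| = |y.re| - |(w a).re| := by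
          rw [add_re]
          cases abs_cases y.re <;> cases abs_cases (w a).re <;>
            cases abs_cases (y.re + (w a).re) <;> nlinarith
        refine ⟨A, hA', insert a B, Finset.insert_subset_insert _ hB, t + |(w a).re|, by linarith,
          by rw [e, r, e1]; ring, ?_, ?_⟩
        · rw [e, add_im]
          have := abs_add_le (y.im - z.im) (w a).im
          rw [show y.im + (w a).im - z.im = y.im - z.im + (w a).im by ring]
          linarith
        · rw [e, r, Finset.sum_insert ha]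
          exact e3.imp (fun h => by linarith) fun h => by linarith
    · exact ⟨A, hA', B, hB', t, t0, e1, e2, Or.inr (by linarith)⟩

noncomputable def N (z : ℂ) : ℝ := |z.re| + |z.im|

theorem two_step (w : ℕ → ℂ) (m μ : ℝ) (z : ℂ) (W W' : Finset ℕ) (hd : Disjoint W W')
    (h1 : ∀ q ∈ W, |(w q).im| ≤ |(w q).re| / 4) (h2 : ∀ q ∈ W, |(w q).re| ≤ m)
    (h3 : ∀ q ∈ W', |(w q).re| ≤ |(w q).im| / 4) (h4 : ∀ q ∈ W', |(w q).im| ≤ m)
    (h5 : μ ≤ ∑ q ∈ W, |(w q).re|) (h6 : μ ≤ ∑ q ∈ W', |(w q).im|) (T : ℝ)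
    (h7 : N z - 3 / 4 * μ ≤ T) (h8 : 2 * m + μ / 4 ≤ T) :
    ∃ A ⊆ W ∪ W', ∃ B ⊆ W ∪ W', N (z - (∑ q ∈ A, w q - ∑ q ∈ B, w q)) ≤ T := by
  obtain ⟨A, hA, B, hB, t, t0, e1, e2, e3⟩ := axis w m z W h1 h2
  set y := z - (∑ q ∈ A, w q - ∑ q ∈ B, w q) with hy
  obtain ⟨A', hA', B', hB', t', t0', f1, f2, f3⟩ := axis (fun q => -I * w q) m (-I * y) W'
    (by simpa using h3) (by simpa using h4)
  rw [← Finset.mul_sum, ← Finset.mul_sum, ← mul_sub, ← mul_sub] at f1 f2 f3
  refine ⟨A ∪ A', Finset.union_subset_union hA hA', B ∪ B', Finset.union_subset_union hB hB', ?_⟩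
  rw [Finset.sum_union (hd.mono hA hA'), Finset.sum_union (hd.mono hB hB')]
  set x := y - (∑ q ∈ A', w q - ∑ q ∈ B', w q) with hx
  rw [show z - (∑ q ∈ A, w q + ∑ q ∈ A', w q - (∑ q ∈ B, w q + ∑ q ∈ B', w q)) = x by
    rw [hx, hy]; ring]
  simp only [neg_mul, neg_re, neg_im, I_mul_re, I_mul_im, neg_neg] at f1 f2 f3
  unfold N at *
  have a1 : |x.re| ≤ |y.re| + t' / 4 := by
    have := abs_sub (y.re) (-x.re - -y.re)
    rw [show y.re - (-x.re - -y.re) = x.re by ring] at this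
    linarith
  have a2 : |y.im| ≤ |z.im| + t / 4 := by
    have := abs_add_le (z.im) (y.im - z.im)
    rw [show z.im + (y.im - z.im) = y.im by ring] at this
    linarith
  by_cases c1 : μ ≤ t + t'
  · linarith
  · have b1 : |y.re| ≤ m := e3.resolve_left fun h => by linarith
    have b2 : |x.im| ≤ m := f3.resolve_left fun h => by linarith
    linarith

theorem cheb : ∃ x0 : ℝ, ∀ x, x0 ≤ x → 2 * x ≤ Chebyshev.theta (8 * x) - Chebyshev.theta x := by
  obtain ⟨C, hC⟩ := Chebyshev.psi_sub_theta_le_mul_sqrt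
  refine ⟨max 2 ((10 * (|C| + 5)) ^ 2), fun x hx => ?_⟩
  have x2 : 2 ≤ x := (le_max_left _ _).trans hx
  have x3 : 10 * (|C| + 5) ≤ √(8 * x) :=
    Real.le_sqrt_of_sq_le (((le_max_right _ _).trans hx).trans (by linarith))
  have h1 := Chebyshev.psi_ge' (x := 8 * x) (by linarith)
  have h2 := hC (8 * x)
  have h3 := Chebyshev.theta_le_log4_mul_x (x := x) (by linarith)
  have h4 : Real.log 4 = 2 * Real.log 2 := by
    rw [show (4 : ℝ) = 2 ^ 2 by norm_num, Real.log_pow]; norm_num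
  have l1 := Real.log_two_gt_d9
  have l2 := Real.log_two_lt_d9
  have s0 := Real.sqrt_nonneg (8 * x)
  have s1 : √(8 * x) * √(8 * x) = 8 * x := Real.mul_self_sqrt (by linarith)
  have hC0 := abs_nonneg C
  have h5 : Real.log (8 * x + 2) ≤ 4 * √(8 * x) := by
    have : Real.log (8 * x + 2) ≤ Real.log ((2 * √(8 * x)) ^ 2) :=
      Real.log_le_log (by linarith) (by nlinarith)
    rw [Real.log_pow] at this
    have := Real.log_le_sub_one_of_pos (x := 2 * √(8 * x)) (by linarith)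
    push_cast at *
    linarith
  have h6 : C * √(8 * x) ≤ |C| * √(8 * x) := mul_le_mul_of_nonneg_right (le_abs_self C) s0
  have h7 : 10 * (|C| + 5) * √(8 * x) ≤ 8 * x := by
    rw [← s1, Real.sqrt_mul_self s0]; exact mul_le_mul_of_nonneg_right x3 s0
  rw [h4] at h3
  nlinarith

noncomputable def Wn (L : ℝ) (k : ℕ) : Finset ℕ :=
  (Ioc ⌊Real.exp (k * L)⌋₊ ⌊8 * Real.exp (k * L)⌋₊).filter Nat.Prime

theorem mem_Wn {L : ℝ} {k q : ℕ} (h : q ∈ Wn L k) :
    q.Prime ∧ Real.exp (k * L) < q ∧ (q : ℝ) ≤ 8 * Real.exp (k * L) := by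
  simp only [Wn, mem_filter, mem_Ioc] at h
  exact ⟨h.2, (Nat.floor_lt (by positivity)).1 h.1.1, (Nat.le_floor_iff (by positivity)).1 h.1.2⟩

theorem log8 : Real.log 8 ≤ 21 / 10 := by
  rw [show (8 : ℝ) = 2 ^ 3 by norm_num, Real.log_pow]
  have := Real.log_two_lt_d9
  push_cast; linarith

theorem Wn_mass {L s x0 : ℝ} (hL : 70 ≤ L) (hx : x0 ≤ L) (s1 : 1 < s) (s2 : s ≤ 2)
    (hc : ∀ x, x0 ≤ x → 2 * x ≤ Chebyshev.theta (8 * x) - Chebyshev.theta x) (k : ℕ) (hk : 1 ≤ k) :
    Real.exp (-(k * L * (s - 1))) / (64 * k * L) ≤ ∑ q ∈ Wn L k, (q : ℝ) ^ (-s) := by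
  have hk' : (1 : ℝ) ≤ k := by exact_mod_cast hk
  set X := Real.exp (k * L) with hX
  have hX0 : 0 < X := Real.exp_pos _
  have hkL : L ≤ k * L := by nlinarith
  have h1 := hc X (by have := Real.add_one_le_exp (k * L); linarith)
  have h2 : Chebyshev.theta (8 * X) - Chebyshev.theta X = ∑ q ∈ Wn L k, Real.log q := by
    have hle : ⌊X⌋₊ ≤ ⌊8 * X⌋₊ := Nat.floor_le_floor (by linarith)
    unfold Chebyshev.theta Wn
    simp only [Finset.sum_filter]
    rw [← Finset.sum_Ioc_consecutive _ (Nat.zero_le _) hle]; ring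
  have h3 : ∀ q ∈ Wn L k, Real.exp (-(k * L * s)) / 64 / (2 * k * L) * Real.log q ≤
      (q : ℝ) ^ (-s) := by
    intro q hq
    obtain ⟨a, b, c⟩ := mem_Wn hq
    have hq0 : (0 : ℝ) < q := hX0.trans b
    have l1 : Real.log q ≤ 2 * k * L := by
      have := Real.log_le_log hq0 c
      rw [Real.log_mul (by norm_num) hX0.ne', hX, Real.log_exp] at this
      have := log8
      linarith
    have l2 : Real.exp (-(k * L * s)) / 64 ≤ (q : ℝ) ^ (-s) := by
      refine le_trans ?_ (Real.rpow_le_rpow_of_nonpos hq0 c (by linarith))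
      rw [Real.mul_rpow (by norm_num) hX0.le, hX, ← Real.exp_mul, mul_neg, div_eq_inv_mul]
      refine mul_le_mul_of_nonneg_right ?_ (Real.exp_pos _).le
      have : (8 : ℝ) ^ (-2 : ℝ) ≤ 8 ^ (-s) :=
        Real.rpow_le_rpow_of_exponent_le (by norm_num) (by linarith)
      refine le_trans (le_of_eq ?_) this
      rw [Real.rpow_neg (by norm_num)]; norm_num
    refine le_trans ?_ l2
    rw [div_mul_eq_mul_div, div_le_iff₀ (by positivity)]
    exact mul_le_mul_of_nonneg_left l1 (by positivity)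
  refine le_trans ?_ (Finset.sum_le_sum h3)
  rw [← Finset.mul_sum, ← h2]
  refine le_trans (le_of_eq ?_) (mul_le_mul_of_nonneg_left h1 (by positivity))
  rw [show -(k * L * (s - 1)) = -(k * L * s) + k * L by ring, Real.exp_add, ← hX]
  field_simp

theorem Wn_dir {L s : ℝ} (hL : 70 ≤ L) (s1 : 1 < s) (k : ℕ) (hk : 1 ≤ k) {q : ℕ}
    (hq : q ∈ Wn L k) :
    (q : ℝ) ^ (-s) ≤ Real.exp (-(k * L * s)) ∧
    ‖log (1 + (q : ℂ) ^ (⟨-s, Real.pi / (2 * L)⟩ : ℂ)) - ((q : ℝ) ^ (-s) : ℝ) * I ^ k‖ ≤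
      (q : ℝ) ^ (-s) / 8 := by
  have hk' : (1 : ℝ) ≤ k := by exact_mod_cast hk
  obtain ⟨a, b, c⟩ := mem_Wn hq
  have hX0 : 0 < Real.exp (k * L) := Real.exp_pos _
  have hq0 : (0 : ℝ) < q := hX0.trans b
  have r1 : (q : ℝ) ^ (-s) ≤ Real.exp (-(k * L * s)) := by
    rw [← mul_neg, Real.exp_mul]
    exact Real.rpow_le_rpow_of_nonpos hX0 b.le (by linarith)
  refine ⟨r1, ?_⟩
  set ρ := (q : ℝ) ^ (-s) with hρ
  have ρ0 : 0 < ρ := by positivity
  have ρ1 : ρ ≤ 1 / 16 := by
    refine r1.trans ?_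
    have : 70 ≤ k * L * s := by nlinarith [mul_le_mul hk' hL (by norm_num) (by linarith)]
    have h2 := Real.add_one_le_exp (k * L * s)
    rw [Real.exp_neg, inv_eq_one_div]
    exact one_div_le_one_div_of_le (by norm_num) (by linarith)
  set φ : ℝ := Real.pi / (2 * L) * (Real.log q - k * L) with hφ
  have l0 : k * L ≤ Real.log q := by
    rw [Real.le_log_iff_exp_le hq0]; exact b.le
  have l1 : Real.log q - k * L ≤ 21 / 10 := by
    have := Real.log_le_log hq0 c
    rw [Real.log_mul (by norm_num) hX0.ne', Real.log_exp] at this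
    have := log8
    linarith
  have φ0 : 0 ≤ φ := mul_nonneg (by have := Real.pi_pos; positivity) (by linarith)
  have φ1 : φ ≤ 1 / 16 := by
    have : Real.pi / (2 * L) ≤ 4 / 140 :=
      div_le_div₀ (by norm_num) Real.pi_le_four (by norm_num) (by linarith)
    calc φ ≤ 4 / 140 * (21 / 10) := mul_le_mul this l1 (by linarith) (by norm_num)
      _ ≤ _ := by norm_num
  set x := (q : ℂ) ^ (⟨-s, Real.pi / (2 * L)⟩ : ℂ) with hx
  have hxe : x = ρ * I ^ k * cexp (I * φ) := by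
    have hL0 : (L : ℂ) ≠ 0 := by exact_mod_cast (by linarith : L ≠ 0)
    have hI : I ^ k = cexp (k * (Real.pi / 2 * I)) := by
      rw [Complex.exp_nat_mul, exp_pi_div_two_mul_I]
    rw [hI, hx, cpow_def_of_ne_zero (by exact_mod_cast a.ne_zero), hρ, Real.rpow_def_of_pos hq0,
      ofReal_exp, ← Complex.exp_add,
      ← Complex.exp_add, ← natCast_log, mk_eq_add_mul_I, hφ]
    congr 1
    push_cast
    field_simp
    ring
  have hn : ‖x‖ = ρ := by
    rw [hx, norm_natCast_cpow_of_pos a.pos]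
  have e1 : ‖log (1 + x) - x‖ ≤ ρ / 16 := by
    refine (norm_log_one_add_sub_self_le (by rw [hn]; linarith)).trans ?_
    rw [hn]
    have : (1 - ρ)⁻¹ ≤ 2 := by
      rw [inv_le_comm₀ (by linarith) (by norm_num)]; linarith
    nlinarith [mul_le_mul_of_nonneg_left this (sq_nonneg ρ)]
  have e2 : ‖x - ρ * I ^ k‖ ≤ ρ / 16 := by
    rw [hxe, ← mul_sub_one, norm_mul, norm_mul, norm_pow, norm_I, one_pow, mul_one, norm_real,
      Real.norm_of_nonneg ρ0.le]
    have := Real.norm_exp_I_mul_ofReal_sub_one_le (x := φ)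
    rw [Real.norm_of_nonneg φ0] at this
    nlinarith
  have := norm_add_le (log (1 + x) - x) (x - ρ * I ^ k)
  rw [sub_add_sub_cancel] at this
  linarith

end Pool.Agent.H.MP_8a688e_nt
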