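import Pool.Agent.H.MP_8a688e_nt.B

set_option autoImplicit false

namespace Pool.Agent.H.MP_8a688e_nt

open Finset Filter Topology Complex

theorem near_re {w : ℂ} {ρ : ℝ} {K : ℕ} (h0 : 0 ≤ ρ) (h : ‖w - ρ * I ^ (2 * K)‖ ≤ ρ / 8) :
    |w.im| ≤ |w.re| / 4 ∧ |w.re| ≤ 2 * ρ ∧ ρ / 2 ≤ |w.re| := by
  have a := (abs_re_le_norm _).trans h
  have b := (abs_im_le_norm _).trans h
  rw [pow_mul, I_sq] at a b
  rcases neg_one_pow_eq_or ℂ K with e | e <;> rw [e] at a b <;> simp at a b <;>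
    rw [abs_le] at a <;> cases abs_cases w.re <;> refine ⟨?_, ?_, ?_⟩ <;> linarith

theorem near_im {w : ℂ} {ρ : ℝ} {K : ℕ} (h0 : 0 ≤ ρ) (h : ‖w - ρ * I ^ (2 * K + 1)‖ ≤ ρ / 8) :
    |w.re| ≤ |w.im| / 4 ∧ |w.im| ≤ 2 * ρ ∧ ρ / 2 ≤ |w.im| := by
  have : ‖-I * w - ρ * I ^ (2 * K)‖ ≤ ρ / 8 := by
    rw [show -I * w - ρ * I ^ (2 * K) = -I * (w - ρ * I ^ (2 * K + 1)) by
      rw [pow_succ]; linear_combination (-(ρ : ℂ) * I ^ (2 * K)) * I_mul_I]
    simpa using h
  simpa using near_re h0 this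

theorem tail_big (D : ℝ) : ∃ J : ℕ, ∀ ρ : ℝ, 0 < ρ → ρ < 1 → 1 / 2 ≤ ρ ^ (J + 1) → ∀ K : ℕ, 1 ≤ K →
    D * (ρ ^ K / K) ≤ ∑' j : ℕ, ρ ^ (j + (K + 1)) / ((j + (K + 1) : ℕ) : ℝ) := by
  obtain ⟨J, hJ⟩ := (Real.tendsto_sum_range_one_div_nat_succ_atTop.eventually_ge_atTop
    (4 * D)).exists
  refine ⟨J, fun ρ h0 h1 h2 K hK => ?_⟩
  have hK' : (1 : ℝ) ≤ K := by exact_mod_cast hK
  have hs : Summable fun j : ℕ => ρ ^ (j + (K + 1)) / ((j + (K + 1) : ℕ) : ℝ) := by
    refine Summable.of_nonneg_of_le (fun _ => by positivity) (fun j => ?_)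
      (summable_geometric_of_lt_one h0.le h1)
    refine (div_le_self (by positivity) (by exact_mod_cast (by omega))).trans ?_
    exact pow_le_pow_of_le_one h0.le h1.le (by omega)
  refine le_trans ?_ (hs.sum_le_tsum (range J) fun _ _ => by positivity)
  calc D * (ρ ^ K / K) ≤ (∑ i ∈ range J, (1 / (i + 1) : ℝ)) / 4 * (ρ ^ K / K) :=
        mul_le_mul_of_nonneg_right (by linarith) (by positivity)
    _ ≤ _ := by
      rw [Finset.sum_div, Finset.sum_mul]
      refine Finset.sum_le_sum fun j hj => ?_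
      have hj' := mem_range.1 hj
      have a1 : 1 / 2 ≤ ρ ^ (j + 1) := h2.trans (pow_le_pow_of_le_one h0.le h1.le (by omega))
      have j0 : (0 : ℝ) ≤ j := Nat.cast_nonneg _
      rw [show j + (K + 1) = K + (j + 1) by ring, pow_add]
      push_cast
      rw [show 1 / ((j : ℝ) + 1) / 4 * (ρ ^ K / K) = ρ ^ K * (1 / 2) / (2 * (j + 1) * K) by
        field_simp; ring]
      refine div_le_div₀ (by positivity) (mul_le_mul_of_nonneg_left a1 (by positivity))
        (by positivity) (by nlinarith)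

theorem reach : ∃ s b : ℝ, 1 < s ∧ b ≠ 0 ∧ ∀ p : ℕ, 1 ≤ p → ∀ z : ℂ, ‖z‖ ≤ 3 * (p : ℝ) ^ (-s) →
    ∀ e : ℝ, 0 < e → ∃ A B : Finset ℕ, (∀ q ∈ A, q.Prime ∧ p < q) ∧ (∀ q ∈ B, q.Prime ∧ p < q) ∧
      ‖z - (∑ q ∈ A, log (1 + (q : ℂ) ^ (⟨-s, b⟩ : ℂ)) -
        ∑ q ∈ B, log (1 + (q : ℂ) ^ (⟨-s, b⟩ : ℂ)))‖ < e := by
  obtain ⟨x0, hx0⟩ := cheb
  obtain ⟨L, hL, hLx⟩ : ∃ L : ℝ, 70 ≤ L ∧ x0 ≤ L := ⟨max 70 x0, le_max_left _ _, le_max_right _ _⟩
  have L0 : 0 < L := by linarith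
  set c0 : ℝ := 1 / (768 * L) with hc0
  have c00 : 0 < c0 := by positivity
  have c01 : c0 ≤ 1 := by rw [hc0, div_le_one (by positivity)]; linarith
  set D : ℝ := 6 * Real.exp (4 * L) + 5 with hD
  obtain ⟨J, hJ⟩ := tail_big (D / (3 / 4 * c0))
  obtain ⟨ε, ε0, ε1, hε⟩ : ∃ ε : ℝ, 0 < ε ∧ ε ≤ 1 ∧ 1 / 2 ≤ Real.exp (-(2 * L * ε)) ^ (J + 1) := by
    refine ⟨1 / (4 * L * (J + 1)), by positivity, ?_, ?_⟩
    · rw [div_le_one (by positivity)]
      have : (0 : ℝ) ≤ J := Nat.cast_nonneg _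
      nlinarith
    · rw [← Real.exp_nat_mul]
      have := Real.add_one_le_exp (((J + 1 : ℕ) : ℝ) * -(2 * L * (1 / (4 * L * (J + 1)))))
      refine le_trans (le_of_eq ?_) this
      push_cast; field_simp; ring
  set ρ := Real.exp (-(2 * L * ε)) with hρ
  have ρ0 : 0 < ρ := Real.exp_pos _
  have ρ1 : ρ < 1 := Real.exp_lt_one_iff.2 (by simp; positivity)
  have ρ2 : 1 / 2 ≤ ρ := hε.trans (pow_le_of_le_one ρ0.le ρ1.le (by omega))
  set a : ℕ → ℝ := fun K => ρ ^ K / K with ha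
  have a0 : ∀ K, 0 ≤ a K := fun K => by positivity
  have hsum : Summable a := by
    refine Summable.of_nonneg_of_le a0 (fun j => ?_) (summable_geometric_of_lt_one ρ0.le ρ1)
    rcases Nat.eq_zero_or_pos j with rfl | h
    · simp [ha]
    · exact div_le_self (by positivity) (by exact_mod_cast h)
  set T : ℕ → ℝ := fun K => 3 / 4 * c0 * ∑' j, a (j + K) with hT
  have T1 : ∀ K, T K = 3 / 4 * (c0 * a K) + T (K + 1) := fun K => by
    simp only [hT]
    rw [((summable_nat_add_iff K).2 hsum).tsum_eq_zero_add]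
    simp only [zero_add, add_assoc, add_comm 1 K]
    ring
  have T2 : ∀ K, 1 ≤ K → D * a K ≤ T (K + 1) := fun K hK => by
    have := mul_le_mul_of_nonneg_left (hJ ρ ρ0 ρ1 hε K hK) (by positivity : 0 ≤ 3 / 4 * c0)
    rw [← mul_assoc, mul_div_cancel₀ _ (by positivity)] at this
    exact this
  have T3 : Tendsto T atTop (𝓝 0) := by
    simpa using (tendsto_sum_nat_add a).const_mul (3 / 4 * c0)
  have hm : ∀ K : ℕ, 1 ≤ K → Real.exp (-(2 * K * L * (1 + ε))) ≤ a K := fun K hK => by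
    have hK' : (1 : ℝ) ≤ K := by exact_mod_cast hK
    simp only [ha, hρ]
    rw [← Real.exp_nat_mul, le_div_iff₀ (by linarith),
      show (K : ℝ) * -(2 * L * ε) = -(2 * K * L * (1 + ε)) + 2 * K * L by ring, Real.exp_add]
    refine mul_le_mul_of_nonneg_left ?_ (Real.exp_pos _).le
    have := Real.add_one_le_exp (2 * K * L)
    nlinarith
  refine ⟨1 + ε, Real.pi / (2 * L), by linarith, by have := Real.pi_pos; positivity,
    fun p hp z hz e he => ?_⟩
  set w : ℕ → ℂ := fun q => log (1 + (q : ℂ) ^ (⟨-(1 + ε), Real.pi / (2 * L)⟩ : ℂ)) with hw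
  have hp' : (1 : ℝ) ≤ p := by exact_mod_cast hp
  have step : ∀ K : ℕ, 1 ≤ K → ∀ y : ℂ, N y ≤ T K →
      ∃ A ⊆ Wn L (2 * K) ∪ Wn L (2 * K + 1), ∃ B ⊆ Wn L (2 * K) ∪ Wn L (2 * K + 1),
        N (y - (∑ q ∈ A, w q - ∑ q ∈ B, w q)) ≤ T (K + 1) := by
    intro K hK y hy
    have hK' : (1 : ℝ) ≤ K := by exact_mod_cast hK
    have d1 := fun q hq => Wn_dir (s := 1 + ε) hL (by linarith) (2 * K) (by omega) (q := q) hq
    have d2 := fun q hq => Wn_dir (s := 1 + ε) hL (by linarith) (2 * K + 1) (by omega) (q := q) hq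
    have n1 := fun q hq => near_re (by positivity) (d1 q hq).2
    have n2 := fun q hq => near_im (by positivity) (d2 q hq).2
    have mass : ∀ k : ℕ, 2 * K ≤ k → k ≤ 2 * K + 1 →
        c0 * a K ≤ ∑ q ∈ Wn L k, (q : ℝ) ^ (-(1 + ε)) / 2 := fun k k1 k2 => by
      have k1' : (2 * K : ℝ) ≤ k := by exact_mod_cast k1
      have k2' : (k : ℝ) ≤ 2 * K + 1 := by exact_mod_cast k2
      rw [← Finset.sum_div]
      have := Wn_mass (s := 1 + ε) hL hLx (by linarith) (by linarith) hx0 k (by omega)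
      refine le_trans ?_ (div_le_div_of_nonneg_right this (by norm_num))
      have e1 : ρ ^ K * (1 / 2) ≤ Real.exp (-(k * L * (1 + ε - 1))) := by
        refine (mul_le_mul_of_nonneg_left ρ2 (by positivity)).trans ?_
        rw [← pow_succ, hρ, ← Real.exp_nat_mul]
        refine Real.exp_le_exp.2 ?_
        push_cast
        nlinarith [mul_pos L0 ε0]
      rw [div_div, show c0 * a K = ρ ^ K * (1 / 2) / (384 * K * L) by
        simp only [ha, hc0]; field_simp; ring]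
      exact div_le_div₀ (by positivity) e1 (by nlinarith) (by nlinarith)
    refine two_step w (2 * a K) (c0 * a K) y _ _ ?_ (fun q hq => (n1 q hq).1) (fun q hq => ?_)
      (fun q hq => (n2 q hq).1) (fun q hq => ?_)
      ((mass _ le_rfl (by omega)).trans (Finset.sum_le_sum fun q hq => (n1 q hq).2.2))
      ((mass _ (by omega) le_rfl).trans (Finset.sum_le_sum fun q hq => (n2 q hq).2.2)) _
      (by linarith [T1 K]) ?_
    · refine Finset.disjoint_left.2 fun q h1 h2 => ?_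
      have b1 := (mem_Wn h1).2.2
      have b2 := (mem_Wn h2).2.1
      push_cast at b1 b2
      rw [add_mul, one_mul, Real.exp_add] at b2
      have := Real.add_one_le_exp L
      nlinarith [Real.exp_pos (2 * K * L)]
    · have := (d1 q hq).1
      push_cast at this
      linarith [(n1 q hq).2.1, hm K hK]
    · have := (d2 q hq).1
      have h3 : Real.exp (-(((2 * K + 1 : ℕ) : ℝ) * L * (1 + ε))) ≤
          Real.exp (-(2 * K * L * (1 + ε))) := Real.exp_le_exp.2 (by push_cast; nlinarith)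
      linarith [(n2 q hq).2.1, hm K hK]
    · have := T2 K hK
      have h4 := Real.exp_pos (4 * L)
      have := a0 K
      nlinarith
  obtain ⟨K0, hK0, k1, k2⟩ : ∃ K0 : ℕ, 1 ≤ K0 ∧ (p : ℝ) ≤ Real.exp (2 * K0 * L) ∧
      Real.exp (2 * K0 * L - 2 * L) ≤ p := by
    have l0 : 0 ≤ Real.log p / (2 * L) := div_nonneg (Real.log_nonneg hp') (by positivity)
    refine ⟨⌊Real.log p / (2 * L)⌋₊ + 1, by omega, ?_, ?_⟩
    · rw [← Real.log_le_iff_le_exp (by linarith)]
      have := Nat.lt_floor_add_one (Real.log p / (2 * L))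
      rw [div_lt_iff₀ (by positivity)] at this
      push_cast; linarith
    · rw [← Real.le_log_iff_exp_le (by linarith)]
      have := Nat.floor_le l0
      rw [le_div_iff₀ (by positivity)] at this
      push_cast; linarith
  have init : N z ≤ T K0 := by
    have b1 : (p : ℝ) ^ (-(1 + ε)) ≤ Real.exp (4 * L) * a K0 := by
      refine (Real.rpow_le_rpow_of_nonpos (Real.exp_pos _) k2 (by linarith)).trans ?_
      refine le_trans ?_ (mul_le_mul_of_nonneg_left (hm K0 hK0) (Real.exp_pos _).le)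
      rw [← Real.exp_mul, ← Real.exp_add]
      exact Real.exp_le_exp.2 (by nlinarith)
    have b2 := abs_re_le_norm z
    have b3 := abs_im_le_norm z
    have := T1 K0
    have := T2 K0 hK0
    have := a0 K0
    have := mul_nonneg c00.le (a0 K0)
    unfold N
    nlinarith
  have main : ∀ j : ℕ, ∃ A B : Finset ℕ,
      (∀ q ∈ A ∪ B, q.Prime ∧ p < q ∧ (q : ℝ) ≤ Real.exp (2 * (K0 + j : ℕ) * L)) ∧
      N (z - (∑ q ∈ A, w q - ∑ q ∈ B, w q)) ≤ T (K0 + j) := by
    intro j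
    induction j with
    | zero => exact ⟨∅, ∅, by simp, by simpa using init⟩
    | succ j ih =>
      obtain ⟨A, B, h1, h2⟩ := ih
      obtain ⟨A', hA', B', hB', h3⟩ := step (K0 + j) (by omega) _ h2
      have j0 : (0 : ℝ) ≤ j := Nat.cast_nonneg _
      have hW : ∀ q ∈ Wn L (2 * (K0 + j)) ∪ Wn L (2 * (K0 + j) + 1), q.Prime ∧
          Real.exp (2 * (K0 + j : ℕ) * L) < q ∧
            (q : ℝ) ≤ Real.exp (2 * (K0 + (j + 1) : ℕ) * L) := by
        intro q hq
        have h8 : ∀ x y : ℝ, x + L ≤ y → 8 * Real.exp x ≤ Real.exp y := fun x y h => by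
          refine le_trans ?_ (Real.exp_le_exp.2 h)
          rw [Real.exp_add]
          have := Real.add_one_le_exp L
          nlinarith [Real.exp_pos x]
        rcases mem_union.1 hq with h | h <;> obtain ⟨u1, u2, u3⟩ := mem_Wn h
        · exact ⟨u1, lt_of_le_of_lt (Real.exp_le_exp.2 (by push_cast; nlinarith)) u2,
            u3.trans (h8 _ _ (by push_cast; nlinarith))⟩
        · exact ⟨u1, lt_of_le_of_lt (Real.exp_le_exp.2 (by push_cast; nlinarith)) u2,
            u3.trans (h8 _ _ (by push_cast; nlinarith))⟩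
      have dj : ∀ X Y : Finset ℕ, X ⊆ A ∪ B → Y ⊆ Wn L (2 * (K0 + j)) ∪ Wn L (2 * (K0 + j) + 1) →
          Disjoint X Y := fun X Y hX hY => Finset.disjoint_left.2 fun q a b =>
        absurd (h1 q (hX a)).2.2 (not_le.2 (hW q (hY b)).2.1)
      refine ⟨A ∪ A', B ∪ B', fun q hq => ?_, ?_⟩
      · have : q ∈ A ∪ B ∨ q ∈ Wn L (2 * (K0 + j)) ∪ Wn L (2 * (K0 + j) + 1) := by
          rcases mem_union.1 hq with h | h <;> rcases mem_union.1 h with h | h
          exacts [Or.inl (mem_union_left _ h), Or.inr (hA' h), Or.inl (mem_union_right _ h),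
            Or.inr (hB' h)]
        rcases this with h | h
        · exact ⟨(h1 q h).1, (h1 q h).2.1, (h1 q h).2.2.trans
            (Real.exp_le_exp.2 (by push_cast; nlinarith))⟩
        · refine ⟨(hW q h).1, ?_, (hW q h).2.2⟩
          have : (p : ℝ) < q := lt_of_le_of_lt (k1.trans
            (Real.exp_le_exp.2 (by push_cast; nlinarith))) (hW q h).2.1
          exact_mod_cast this
      · rw [Finset.sum_union (dj _ _ subset_union_left hA'),
          Finset.sum_union (dj _ _ subset_union_right hB')]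
        convert h3 using 2 <;> ring
  obtain ⟨M, hM⟩ := eventually_atTop.1 (T3.eventually (gt_mem_nhds he))
  obtain ⟨A, B, h1, h2⟩ := main M
  refine ⟨A, B, fun q hq => ?_, fun q hq => ?_, ?_⟩
  · have := h1 q (mem_union_left _ hq); exact ⟨this.1, this.2.1⟩
  · have := h1 q (mem_union_right _ hq); exact ⟨this.1, this.2.1⟩
  · exact (norm_le_abs_re_add_abs_im _).trans_lt (h2.trans_lt (hM _ (by omega)))

theorem main : ∃ c : ℂ, c.im ≠ 0 ∧ c.re < -1 ∧
    IsConnected (closure {z | ∃ n : ℕ, 1 ≤ n ∧ z = sig c n}) := by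
  obtain ⟨s, b, hs, hb, H⟩ := reach
  set c : ℂ := ⟨-s, b⟩ with hc
  have hre : c.re < -1 := by simp [hc, hs]
  refine ⟨c, hb, hre, conn_of hre fun p a hp e he => ?_⟩
  obtain ⟨B0, hB0, hB⟩ := sig_bdd hre
  have half : ∀ q : ℕ, q.Prime → ‖(q : ℂ) ^ c‖ ≤ 1 / 2 := fun q hq => by
    rw [norm_natCast_cpow_of_pos hq.pos]
    have h2 : (2 : ℝ) ≤ q := by exact_mod_cast hq.two_le
    calc (q : ℝ) ^ c.re ≤ (q : ℝ) ^ (-1 : ℝ) :=
          Real.rpow_le_rpow_of_exponent_le (by linarith) hre.le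
      _ ≤ _ := by
          rw [Real.rpow_neg_one, inv_eq_one_div]
          exact one_div_le_one_div_of_le (by norm_num) h2
  have ne : ∀ y : ℂ, ‖y‖ ≤ 1 / 2 → 1 + y ≠ 0 := fun y hy h => by
    rw [show y = -1 by linear_combination h] at hy
    norm_num at hy
  set x := (p : ℂ) ^ c with hx
  have hx1 := half p hp
  have hpow : ∀ i, ‖-x ^ (i + 1)‖ ≤ ‖x‖ := fun i => by
    rw [norm_neg, norm_pow]
    exact pow_le_of_le_one (norm_nonneg _) (by linarith) (by omega)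
  set z := log (1 + -x ^ (a + 1 + 1)) - log (1 + -x ^ (a + 1)) with hz
  have hzn : ‖z‖ ≤ 3 * (p : ℝ) ^ (-s) := by
    have h1 := norm_log_one_add_half_le_self ((hpow (a + 1)).trans hx1)
    have h2 := norm_log_one_add_half_le_self ((hpow a).trans hx1)
    have h3 : ‖x‖ = (p : ℝ) ^ (-s) := norm_natCast_cpow_of_pos hp.pos _
    have := norm_sub_le (log (1 + -x ^ (a + 1 + 1))) (log (1 + -x ^ (a + 1)))
    linarith [hpow a, hpow (a + 1)]
  have hze : sig c (p ^ (a + 1)) = sig c (p ^ a) * exp z := by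
    have n1 := ne _ ((hpow (a + 1)).trans hx1)
    have n2 := ne _ ((hpow a).trans hx1)
    have n3 : x - 1 ≠ 0 := fun h => ne (-x) (by rwa [norm_neg]) (by linear_combination -h)
    rw [hz, exp_sub, exp_log n1, exp_log n2, sig_pp c hp, sig_pp c hp, ← hx,
      geom_sum_eq (sub_ne_zero.1 n3), geom_sum_eq (sub_ne_zero.1 n3)]
    field_simp
    ring
  obtain ⟨d, hd, hd'⟩ := Metric.continuousAt_iff.1 (continuous_exp.continuousAt (x := z))
    (e / (B0 * B0)) (by positivity)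
  obtain ⟨A, B, hA, hB', h⟩ := H p hp.pos z hzn d hd
  have ex : ∀ X : Finset ℕ, (∀ q ∈ X, q.Prime ∧ p < q) →
      sig c (∏ q ∈ X, q) = exp (∑ q ∈ X, log (1 + (q : ℂ) ^ c)) := fun X hX => by
    rw [sig_prod c X fun q hq => (hX q hq).1, exp_sum]
    exact Finset.prod_congr rfl fun q hq => (exp_log (ne _ (half q (hX q hq).1))).symm
  have big : ∀ X : Finset ℕ, (∀ q ∈ X, q.Prime ∧ p < q) → ∀ q : ℕ, q.Prime → q ∣ ∏ q ∈ X, q →
      p < q := fun X hX q hq h => by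
    obtain ⟨r, hr, hqr⟩ := (Prime.dvd_finsetProd_iff hq.prime _).1 h
    rw [(Nat.prime_dvd_prime_iff_eq hq (hX r hr).1).1 hqr]
    exact (hX r hr).2
  refine ⟨∏ q ∈ B, q, ∏ q ∈ A, q, Finset.prod_ne_zero_iff.2 fun q hq => (hB' q hq).1.ne_zero,
    Finset.prod_ne_zero_iff.2 fun q hq => (hA q hq).1.ne_zero, big B hB', big A hA, ?_⟩
  have h1 := hd' (x := ∑ q ∈ A, log (1 + (q : ℂ) ^ c) - ∑ q ∈ B, log (1 + (q : ℂ) ^ c))
    (by rw [dist_comm, dist_eq_norm]; exact h)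
  rw [dist_comm, dist_eq_norm, lt_div_iff₀ (by positivity)] at h1
  have e1 : sig c (p ^ (a + 1)) * sig c (∏ q ∈ B, q) - sig c (p ^ a) * sig c (∏ q ∈ A, q) =
      sig c (p ^ a) * sig c (∏ q ∈ B, q) * (exp z -
        exp (∑ q ∈ A, log (1 + (q : ℂ) ^ c) - ∑ q ∈ B, log (1 + (q : ℂ) ^ c))) := by
    rw [hze, ex A hA, ex B hB', exp_sub (∑ q ∈ A, _)]
    field_simp
  rw [e1, norm_mul, norm_mul, mul_comm]
  exact lt_of_le_of_lt (mul_le_mul_of_nonneg_left
    (mul_le_mul (hB _) (hB _) (norm_nonneg _) hB0.le) (norm_nonneg _)) h1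

end Pool.Agent.H.MP_8a688e_nt
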